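import Pool.Agent.Helper48.WeissJ.Goals

/-! MP_6b0aee_an (Weiss), packet CBJ. -/

open Set Filter Topology

namespace Pool.Agent.Helper78.WeissJ

theorem cbj : Pool.Agent.Helper48.WeissJ.CBJ := by
  intro a s hb hcmp
  have hbua : ∀ ε > 0, IsBoundedUnder (· ≤ ·) atTop (a ε) := by
    intro ε hε
    obtain ⟨C, hC⟩ := hb ε hε
    exact ⟨C, by simp only [eventually_map]; exact Eventually.of_forall (fun T => (hC T).2.2)⟩
  have hbla : ∀ ε > 0, IsBoundedUnder (· ≥ ·) atTop (a ε) := by
    intro ε hε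
    obtain ⟨C, hC⟩ := hb ε hε
    exact ⟨0, by simp only [eventually_map]; exact Eventually.of_forall (fun T => (hC T).1.trans (hC T).2.1)⟩
  have hbus : ∀ ε > 0, IsBoundedUnder (· ≤ ·) atTop (s ε) := by
    intro ε hε
    obtain ⟨C, hC⟩ := hb ε hε
    exact ⟨C, by simp only [eventually_map]; exact Eventually.of_forall (fun T => (hC T).2.1.trans (hC T).2.2)⟩
  have hbls : ∀ ε > 0, IsBoundedUnder (· ≥ ·) atTop (s ε) := by
    intro ε hε
    obtain ⟨C, hC⟩ := hb ε hε
    exact ⟨0, by simp only [eventually_map]; exact Eventually.of_forall (fun T => (hC T).1)⟩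
  have hsa : ∀ ε > 0, ∀ T, s ε T ≤ a ε T := by
    intro ε hε T
    obtain ⟨C, hC⟩ := hb ε hε
    exact (hC T).2.1
  have hls : ∀ ε' ε, 0 < ε' → ε' < ε → limsup (a ε) atTop ≤ liminf (s ε') atTop := by
    intro ε' ε hε' hlt
    have hε := hε'.trans hlt
    obtain ⟨c, hc⟩ := hcmp ε' ε hε' hlt
    refine le_trans (b := c) ?_ ?_
    · refine le_of_forall_pos_le_add (fun η hη => ?_)
      obtain ⟨N, hN⟩ := hc η hη
      refine limsup_le_of_le ((hbla ε hε).isCoboundedUnder_le) ?_
      filter_upwards [eventually_ge_atTop N] with T hT using (hN T hT).1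
    · refine le_of_forall_pos_le_add (fun η hη => ?_)
      obtain ⟨N, hN⟩ := hc η hη
      have : c - η ≤ liminf (s ε') atTop := by
        refine le_liminf_of_le ((hbus ε' hε').isCoboundedUnder_ge) ?_
        filter_upwards [eventually_ge_atTop N] with T hT using (hN T hT).2
      linarith
  have hlt : ∀ ε, (0 < ε ∧ ¬ ∃ L : ℝ, Tendsto (a ε) atTop (𝓝 L) ∧ Tendsto (s ε) atTop (𝓝 L)) →
      liminf (s ε) atTop < limsup (a ε) atTop := by
    rintro ε ⟨hε, hne⟩
    by_contra hcon
    rw [not_lt] at hcon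
    have h1 : liminf (a ε) atTop ≤ limsup (a ε) atTop := liminf_le_limsup (hbua ε hε) (hbla ε hε)
    have h2 : liminf (s ε) atTop ≤ limsup (s ε) atTop := liminf_le_limsup (hbus ε hε) (hbls ε hε)
    have h3 : liminf (s ε) atTop ≤ liminf (a ε) atTop :=
      liminf_le_liminf (Eventually.of_forall (hsa ε hε)) (hbls ε hε)
        ((hbua ε hε).isCoboundedUnder_ge)
    have h4 : limsup (s ε) atTop ≤ limsup (a ε) atTop :=
      limsup_le_limsup (Eventually.of_forall (hsa ε hε)) ((hbls ε hε).isCoboundedUnder_le)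
        (hbua ε hε)
    refine hne ⟨limsup (a ε) atTop, ?_, ?_⟩
    · exact tendsto_of_liminf_eq_limsup (le_antisymm h1 (by linarith)) rfl (hbua ε hε) (hbla ε hε)
    · exact tendsto_of_liminf_eq_limsup (le_antisymm (by linarith) hcon)
        (le_antisymm h4 (by linarith)) (hbus ε hε) (hbls ε hε)
  have hq : ∀ ε : {ε : ℝ | 0 < ε ∧ ¬ ∃ L : ℝ, Tendsto (a ε) atTop (𝓝 L) ∧
      Tendsto (s ε) atTop (𝓝 L)},
      ∃ q : ℚ, liminf (s ε) atTop < q ∧ (q : ℝ) < limsup (a ε) atTop :=
    fun ε => exists_rat_btwn (hlt ε.1 ε.2)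
  choose q hq1 hq2 using hq
  have hinj : Function.Injective q := by
    intro x y hxy
    by_contra hne
    have key : ∀ x y : {ε : ℝ | 0 < ε ∧ ¬ ∃ L : ℝ, Tendsto (a ε) atTop (𝓝 L) ∧
        Tendsto (s ε) atTop (𝓝 L)},
        (x : ℝ) < y → q x = q y → False := by
      intro x y hlt' hxy'
      have h1 := hls x y x.2.1 hlt'
      have h2 := hq1 x
      have h3 := hq2 y
      rw [← hxy'] at h3
      linarith
    rcases lt_trichotomy (x : ℝ) y with h | h | h
    · exact key x y h hxy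
    · exact hne (Subtype.ext h)
    · exact key y x h hxy.symm
  exact Set.countable_coe_iff.1 (Function.Injective.countable hinj)

end Pool.Agent.Helper78.WeissJ
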